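import Pool.Agent.R166.SZ.Main
import Mathlib.Algebra.FiveLemma

set_option autoImplicit false

/-!
# Regulators on the rational higher Chow groups of arithmetic schemes
-/

open CategoryTheory AlgebraicGeometry
open Pool.Agent.R904.CU Pool.Agent.R904.EL

namespace Pool.Agent.R166.SR

/-- A homology theory of separated schemes of finite type over `ℤ` with values in real vector spaces. -/
structure Homology where
  /-- the groups -/
  H : ℕ → ℤ → Scheme.{0} → Type
  /-- their group structure -/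
  grp : ∀ (j : ℕ) (i : ℤ) (X : Scheme.{0}), AddCommGroup (H j i X)
  /-- their vector space structure -/
  mod : ∀ (j : ℕ) (i : ℤ) (X : Scheme.{0}), Module ℝ (H j i X)
  /-- the spaces of the empty scheme vanish -/
  empty : ∀ (j : ℕ) (i : ℤ) (X : Scheme.{0}), IsEmpty X → Subsingleton (H j i X)

attribute [instance] Homology.grp Homology.mod

/-- The localization sequence
`… → A(U, i + 1) → A(Z, i) → A(X, i) → A(U, i) → …`: its maps. -/
structure Seq (A : Homology) (j : ℕ) (X Z U : Scheme.{0}) where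
  /-- push-forward -/
  a : ∀ i, A.H j i Z →ₗ[ℝ] A.H j i X
  /-- restriction -/
  b : ∀ i, A.H j i X →ₗ[ℝ] A.H j i U
  /-- boundary -/
  d : ∀ i, A.H j (i + 1) U →ₗ[ℝ] A.H j i Z
  /-- exactness -/
  exact_a : ∀ i, Function.Exact (a i) (b i)
  /-- exactness -/
  exact_b : ∀ i, Function.Exact (b (i + 1)) (d i)
  /-- exactness -/
  exact_d : ∀ i, Function.Exact (d i) (a i)

/-- Rational higher Chow groups of cycles of dimension `-j`, tensored with `ℝ`,
`M.H j i X = CH_{-j}(X, i)_ℝ`, and their regulators, with the formal properties which are used. For a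
regular scheme `X` of dimension `d` one has `CH_{-j}(X, i)_ℝ = H^{2(d+j)-i}(X, ℚ(d+j))_ℝ`. The target
`D.H j i X` is for `j ≥ 1` the Borel-Moore form of real Deligne cohomology, that is
`H^{BM}_{i-2j-1}(X(ℂ), ℝ(-j))^+`, which is `H^{2(d+j)-i}_𝒟(X_ℝ, ℝ(d+j))` if `X_ℚ` is smooth of dimension
`d - 1`; for `j = 0` it is the fibre of the map of this homology to the dual of the cohomology with
compact supports and real coefficients of `X` itself, whose spaces are described in `Weight0`. -/
structure RegTheory where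
  /-- the higher Chow groups, tensored with `ℝ` -/
  M : Homology
  /-- Deligne homology -/
  D : Homology
  /-- the regulator -/
  reg : ∀ (j : ℕ) (i : ℤ) (X : Scheme.{0}), M.H j i X →ₗ[ℝ] D.H j i X
  /-- invariance under isomorphisms -/
  iso : ∀ (j : ℕ) (i : ℤ) (X Y : Scheme.{0}), (X ≅ Y) →
    ∃ (u : M.H j i X ≃ₗ[ℝ] M.H j i Y) (v : D.H j i X ≃ₗ[ℝ] D.H j i Y),
      ∀ x, v (reg j i X x) = reg j i Y (u x)
  /-- the localization sequences of a closed subscheme `Z` with the open complement `U`, and the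
  compatibility of the regulators with them -/
  localization : ∀ (j : ℕ) (X Z U : Scheme.{0}) (f : X ⟶ Spec (.of ℤ)) (k : Z ⟶ X)
    (u : U ⟶ X), SepFinType ℤ X f → IsClosedImmersion k → IsOpenImmersion u →
    Set.range k = (Set.range u)ᶜ →
    ∃ (s : Seq M j X Z U) (t : Seq D j X Z U),
      (∀ i, t.a i ∘ₗ reg j i Z = reg j i X ∘ₗ s.a i) ∧
      (∀ i, t.b i ∘ₗ reg j i X = reg j i U ∘ₗ s.b i) ∧
      (∀ i, t.d i ∘ₗ reg j (i + 1) U = reg j i Z ∘ₗ s.d i)
  /-- the target vanishes in the weights `j ≥ 1` for schemes without characteristic zero points -/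
  vertical : ∀ (j : ℕ) (i : ℤ) (X : Scheme.{0}), 1 ≤ j →
    (∃ N : ℕ, 0 < N ∧ (N : Γ(X, ⊤)) = 0) → Subsingleton (D.H j i X)

namespace RegTheory

variable (T : RegTheory)

/-- All regulators `CH_{-j}(X, i)_ℝ → D(X, i)` are bijective. -/
def Iso (j : ℕ) (X : Scheme.{0}) : Prop := ∀ i, Function.Bijective (T.reg j i X)

theorem bij_of_subsingleton {A B : Type} (f : A → B) [Nonempty A] (hA : Subsingleton A)
    (hB : Subsingleton B) : Function.Bijective f :=
  ⟨fun _ _ _ => Subsingleton.elim _ _, fun b => ⟨Classical.arbitrary A, Subsingleton.elim _ _⟩⟩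

theorem glue_iso (j : ℕ) : Glue (SepFinType ℤ) (fun X _ => T.Iso j X) where
  empty Z f hZ i := bij_of_subsingleton _ (T.M.empty j i Z hZ) (T.D.empty j i Z hZ)
  iso {X Y} f g e _ h i := by
    obtain ⟨u, v, huv⟩ := T.iso j i X Y e
    have h1 : Function.Bijective (v ∘ T.reg j i X) := by
      have h2 : v ∘ T.reg j i X = T.reg j i Y ∘ u := funext fun x => huv x
      rw [h2]
      exact (h i).comp u.bijective
    exact (Function.Bijective.of_comp_iff' v.bijective _).1 h1
  glue X Z U f k u hf hk hu hr hZ hU i := by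
    obtain ⟨s, t, c1, c2, c3⟩ := T.localization j X Z U f k u hf hk hu hr
    have key : ∀ i, Function.Bijective (T.reg j (i + 1) X) := fun i =>
      LinearMap.bijective_of_surjective_of_bijective_of_bijective_of_injective
        (s.d (i + 1)) (s.a (i + 1)) (s.b (i + 1)) (s.d i)
        (t.d (i + 1)) (t.a (i + 1)) (t.b (i + 1)) (t.d i)
        (T.reg j (i + 1 + 1) U) (T.reg j (i + 1) Z) (T.reg j (i + 1) X) (T.reg j (i + 1) U)
        (T.reg j i Z) (c3 (i + 1)) (c1 (i + 1)) (c2 (i + 1)) (c3 i)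
        (s.exact_d (i + 1)) (s.exact_a (i + 1)) (s.exact_b i)
        (t.exact_d (i + 1)) (t.exact_a (i + 1)) (t.exact_b i)
        (hU (i + 1 + 1)).2 (hZ (i + 1)) (hU (i + 1)) (hZ i).1
    have := key (i - 1)
    rwa [sub_add_cancel] at this
  sub X Z U f k u hf hk hu hr hX hU i := by
    obtain ⟨s, t, c1, c2, c3⟩ := T.localization j X Z U f k u hf hk hu hr
    exact LinearMap.bijective_of_surjective_of_bijective_of_bijective_of_injective
        (s.b (i + 1)) (s.d i) (s.a i) (s.b i)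
        (t.b (i + 1)) (t.d i) (t.a i) (t.b i)
        (T.reg j (i + 1) X) (T.reg j (i + 1) U) (T.reg j i Z) (T.reg j i X)
        (T.reg j i U) (c2 (i + 1)) (c3 i) (c1 i) (c2 i)
        (s.exact_b i) (s.exact_d i) (s.exact_a i)
        (t.exact_b i) (t.exact_d i) (t.exact_a i)
        (hX (i + 1)).2 (hU (i + 1)) (hX i) (hU i).1

/-- `X` is connected, regular, proper and flat over `ℤ`. -/
def IsArithmetic (X : Scheme.{0}) : Prop :=
  ∃ f : X ⟶ Spec (.of ℤ), IsProper f ∧ Flat f ∧ ConnectedSpace X ∧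
    ∀ x : X, IsRegularLocalRing (X.presheaf.stalk x)

/-- The description of the target of the regulator in weight `j = 0`, for a connected regular scheme `X`,
proper and flat over `ℤ`, of dimension `d`, by the Deligne cohomology
`Del i X = H^{2d-1-i}_𝒟(X_ℝ, ℝ(d))` and `C X = CH⁰(X)^*_ℝ`: the group `D.H 0 1 X` is the kernel of the
surjective map `Del 0 X → C X`, and `D.H 0 (i + 1) X = Del i X` for `i ≥ 1`. -/
structure Weight0 where
  /-- Deligne cohomology in the degree `2d - 1 - i` -/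
  Del : ℕ → Scheme.{0} → Type
  /-- its group structure -/
  delGrp : ∀ (i : ℕ) (X : Scheme.{0}), AddCommGroup (Del i X)
  /-- its vector space structure -/
  delMod : ∀ (i : ℕ) (X : Scheme.{0}), Module ℝ (Del i X)
  /-- the dual of `CH⁰` of the generic fibre -/
  C : Scheme.{0} → Type
  /-- its group structure -/
  cGrp : ∀ X : Scheme.{0}, AddCommGroup (C X)
  /-- its vector space structure -/
  cMod : ∀ X : Scheme.{0}, Module ℝ (C X)
  /-- the map `Del 0 X → C X` -/
  tr : ∀ X : Scheme.{0}, Del 0 X →ₗ[ℝ] C X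
  /-- the map of the fibre to Deligne cohomology -/
  inc : ∀ (i : ℕ) (X : Scheme.{0}), T.D.H 0 (i + 1) X →ₗ[ℝ] Del i X
  /-- surjectivity of `tr` -/
  tr_surj : ∀ X : Scheme.{0}, IsArithmetic X → Function.Surjective (tr X)
  /-- the group in degree one is the kernel of `tr` -/
  inc_zero : ∀ X : Scheme.{0}, IsArithmetic X →
    Function.Injective (inc 0 X) ∧ Function.Exact (inc 0 X) (tr X)
  /-- the other groups are Deligne cohomology -/
  inc_pos : ∀ X : Scheme.{0}, IsArithmetic X → ∀ i, 1 ≤ i → Function.Bijective (inc i X)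

attribute [instance] Weight0.delGrp Weight0.delMod Weight0.cGrp Weight0.cMod

variable {T}

/-- The map `r_i : H^{2d-1-i}(X, ℚ(d))_ℝ → H^{2d-1-i}_𝒟(X_ℝ, ℝ(d))` of the problem. -/
def Weight0.r (W : T.Weight0) (i : ℕ) (X : Scheme.{0}) : T.M.H 0 (i + 1) X →ₗ[ℝ] W.Del i X :=
  W.inc i X ∘ₗ T.reg 0 (i + 1) X

/-- The assertion of the problem for `X`: the map `r_i` is bijective for `i ≥ 1`, and there is a short
exact sequence `0 → H^{2d-1}(X, ℚ(d))_ℝ → H^{2d-1}_𝒟(X_ℝ, ℝ(d)) → CH⁰(X)^*_ℝ → 0` with first map `r_0`. -/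
def Weight0.Q1At (W : T.Weight0) (X : Scheme.{0}) : Prop :=
  (∀ i, 1 ≤ i → Function.Bijective (W.r i X)) ∧ Function.Injective (W.r 0 X) ∧
    ∃ c : W.Del 0 X →ₗ[ℝ] W.C X, Function.Exact (W.r 0 X) c ∧ Function.Surjective c

theorem Weight0.q1At (W : T.Weight0) {X : Scheme.{0}} (hX : IsArithmetic X) (h : T.Iso 0 X) :
    W.Q1At X := by
  refine ⟨fun i hi => ?_, ?_, W.tr X, ?_, W.tr_surj X hX⟩
  · exact (W.inc_pos X hX i hi).comp (h (i + 1))
  · exact (W.inc_zero X hX).1.comp (h ((0 : ℕ) + 1)).1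
  · intro y
    rw [(W.inc_zero X hX).2 y]
    constructor
    · rintro ⟨z, rfl⟩
      obtain ⟨w, rfl⟩ := (h ((0 : ℕ) + 1)).2 z
      exact ⟨w, rfl⟩
    · rintro ⟨w, rfl⟩
      exact ⟨_, rfl⟩

theorem Weight0.iso_of_q1At (W : T.Weight0) {X : Scheme.{0}} (hX : IsArithmetic X)
    (h : ∀ i : ℕ, 1 ≤ i → Function.Bijective (W.r i X)) (i : ℕ) (hi : 1 ≤ i) :
    Function.Bijective (T.reg 0 (i + 1) X) := by
  have h1 : Function.Bijective (W.inc i X ∘ T.reg 0 (i + 1) X) := h i hi
  exact (Function.Bijective.of_comp_iff' (W.inc_pos X hX i hi) _).1 h1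

end RegTheory

end Pool.Agent.R166.SR
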